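import Pool.Agent.helper32.TRI.Spec

/-! Row tr:HC4 (MP_561ff4_al): conjugates. -/

set_option autoImplicit false

open Finset

namespace Pool.Agent.TRI

open Pool.Agent.EXC

theorem HC4 : HC4_stmt := by
  intro G _ r k y h hHO
  obtain ⟨g, Z, hZ, hr⟩ := hHO
  refine ⟨fun i => g i * h, Z, ?_, hr⟩
  have e : (fun i => g i * h * y * (g i * h)⁻¹) = fun i => g i * (h * y * h⁻¹) * (g i)⁻¹ := by
    funext i
    rw [mul_inv_rev]
    simp only [mul_assoc]
  rw [e]
  exact hZ

end Pool.Agent.TRI
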